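import Pool.Agent.W182.PW.Chain

set_option autoImplicit false

/-!
# Almost prime Cunningham chains of the first kind in all windows around a positive proportion of
the integers

For every `k` there are `r` and `c₁, c₂, K > 0` such that a positive proportion of all integers `n` is
regular: every interval `(a, b]` with `a ≤ n ≤ b` and `K log ^ (k + 1) n ≤ b - a ≤ n` contains between
`c₁ (b - a) / log ^ (k + 1) n` and `c₂ (b - a) / log ^ (k + 1) n` primes `p` for which the next `k`
terms `2 ^ j (p + 1) - 1`, `1 ≤ j ≤ k`, of the Cunningham sequence of the first kind starting with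
`p` have at most `r` prime factors, all larger than `n ^ (1 / r)`.
-/

namespace Pool.Agent.Results.MP_c77da8_nt.RegularWindows

open Finset Filter

/-- `p` is prime and each of the next `k` terms `2 ^ j (p + 1) - 1`, `1 ≤ j ≤ k`, of the sequence
`x ↦ 2 x + 1` has at most `r` prime factors (with multiplicity), all of them larger than `z`. -/
def AlmostChain (k r : ℕ) (z : ℝ) (p : ℕ) : Prop :=
  p.Prime ∧ ∀ j : ℕ, 1 ≤ j → j ≤ k →
    (2 ^ j * (p + 1) - 1).primeFactorsList.length ≤ r ∧
    ∀ q : ℕ, q.Prime → q ∣ 2 ^ j * (p + 1) - 1 → z < (q : ℝ)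

open Classical in
/-- `n` is regular (chains of length `k + 1`). -/
def Regular (k r : ℕ) (c₁ c₂ K : ℝ) (n : ℕ) : Prop :=
  ∀ a b : ℕ, a ≤ n → n ≤ b → K * Real.log n ^ (k + 1) ≤ (b : ℝ) - a → (b : ℝ) - a ≤ n →
    c₁ * ((b : ℝ) - a) / Real.log n ^ (k + 1) ≤
      (((Finset.Ioc a b).filter (fun p => AlmostChain k r ((n : ℝ) ^ (1 / (r : ℝ))) p)).card : ℝ) ∧
    (((Finset.Ioc a b).filter (fun p => AlmostChain k r ((n : ℝ) ^ (1 / (r : ℝ))) p)).card : ℝ) ≤
      c₂ * ((b : ℝ) - a) / Real.log n ^ (k + 1)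

open Classical in
/-- **Almost prime Cunningham chains of the first kind: regular windows.** For every `k`, for some
`r` and positive `c₁, c₂, K, κ` and all large `x` at least `κ x` of the integers `n` in `[1, x]` are
regular. -/
theorem result (k : ℕ) : ∃ (r : ℕ) (c₁ c₂ K κ : ℝ), 0 < c₁ ∧ 0 < c₂ ∧ 0 < K ∧ 0 < κ ∧
    ∀ᶠ x : ℕ in atTop,
      κ * x ≤ (((Finset.Icc 1 x).filter (fun n => Regular k r c₁ c₂ K n)).card : ℝ) :=
  Pool.Agent.W182.PW.main_chain k

end Pool.Agent.Results.MP_c77da8_nt.RegularWindows
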